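import Mathlib

/-!
# Determinants with rows `e_a + e_b - e_c`

If every row of an integer matrix of size `n` is of the form `e_a + e_b - e_c`, where each of the
three terms may be missing, then the determinant has absolute value at most `2 ^ n`.
-/

set_option autoImplicit false

namespace Pool.Agent.J6H70.UnitAdd

open Finset Matrix

/-- a sum over a set with at most one element -/
lemma sum_subsingleton {n : ℕ} (A : Set (Fin n)) [DecidablePred (· ∈ A)] (hA : A.Subsingleton) :
    (∀ c : Fin n → ℤ, ∑ j, (if j ∈ A then c j else 0) = 0) ∨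
      ∃ a, ∀ c : Fin n → ℤ, ∑ j, (if j ∈ A then c j else 0) = c a := by
  rcases hA.eq_empty_or_singleton with h | ⟨a, h⟩
  · left
    intro c
    refine Finset.sum_eq_zero fun j _ => ?_
    have : j ∉ A := by rw [h]; exact Set.notMem_empty j
    rw [if_neg this]
  · right
    refine ⟨a, fun c => ?_⟩
    rw [Finset.sum_eq_single a]
    · have : a ∈ A := by rw [h]; exact Set.mem_singleton a
      rw [if_pos this]
    · intro j _ hj
      have : j ∉ A := by rw [h]; exact hj
      rw [if_neg this]
    · intro h
      exact absurd (Finset.mem_univ a) h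

open Classical in
/-- a row of the form `2 e_a - e_c`, where each term may be missing -/
def Pure {n : ℕ} (v : Fin n → ℤ) : Prop :=
  ∃ A C : Set (Fin n), A.Subsingleton ∧ C.Subsingleton ∧
    ∀ j, v j = (if j ∈ A then 2 else 0) - (if j ∈ C then 1 else 0)

open Classical in
/-- a row of the form `e_a + e_b - e_c`, where each term may be missing -/
def Gen {n : ℕ} (v : Fin n → ℤ) : Prop :=
  ∃ A B C : Set (Fin n), A.Subsingleton ∧ B.Subsingleton ∧ C.Subsingleton ∧
    ∀ j, v j = (if j ∈ A then 1 else 0) + (if j ∈ B then 1 else 0) - (if j ∈ C then 1 else 0)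

open Classical in
lemma pure_sum {n : ℕ} {v : Fin n → ℤ} {A C : Set (Fin n)}
    (hv : ∀ j, v j = (if j ∈ A then 2 else 0) - (if j ∈ C then 1 else 0)) (c : Fin n → ℤ) :
    ∑ j, v j * c j = 2 * ∑ j, (if j ∈ A then c j else 0) - ∑ j, (if j ∈ C then c j else 0) := by
  rw [Finset.mul_sum, ← Finset.sum_sub_distrib]
  refine Finset.sum_congr rfl fun j _ => ?_
  rw [hv j]
  split_ifs <;> ring

lemma pure_sign {n : ℕ} {v : Fin n → ℤ} (hv : Pure v) (c : Fin n → ℤ)
    (h : ∑ j, v j * c j = 0) : ∑ j, v j * max (c j) 0 = 0 := by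
  classical
  obtain ⟨A, C, hA, hC, hv⟩ := hv
  rw [pure_sum hv] at h
  rw [pure_sum hv (fun j => max (c j) 0)]
  rcases sum_subsingleton A hA with h1 | ⟨a, h1⟩ <;>
    rcases sum_subsingleton C hC with h2 | ⟨b, h2⟩
  · rw [h1, h2]; ring
  · rw [h1, h2] at h
    rw [h1, h2]
    have : c b = 0 := by linarith
    rw [this]; simp
  · rw [h1, h2] at h
    rw [h1, h2]
    have : c a = 0 := by linarith
    rw [this]; simp
  · rw [h1, h2] at h
    rw [h1, h2]
    have : c b = 2 * c a := by linarith
    rw [this]
    rcases le_total (c a) 0 with h3 | h3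
    · rw [max_eq_right h3, max_eq_right (by linarith)]; ring
    · rw [max_eq_left h3, max_eq_left (by linarith)]; ring

lemma pure_bound {n : ℕ} {v : Fin n → ℤ} (hv : Pure v) (c : Fin n → ℤ) (K : ℤ) (hK : 0 ≤ K)
    (hc : ∀ j, 0 ≤ c j) (hc' : ∀ j, c j ≤ K) : |∑ j, v j * c j| ≤ 2 * K := by
  classical
  obtain ⟨A, C, hA, hC, hv⟩ := hv
  rw [pure_sum hv]
  rcases sum_subsingleton A hA with h1 | ⟨a, h1⟩ <;>
    rcases sum_subsingleton C hC with h2 | ⟨b, h2⟩
  · rw [h1, h2, abs_le]; constructor <;> linarith
  · rw [h1, h2, abs_le]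
    have := hc b; have := hc' b
    constructor <;> linarith
  · rw [h1, h2, abs_le]
    have := hc a; have := hc' a
    constructor <;> linarith
  · rw [h1, h2, abs_le]
    have := hc a; have := hc' a
    have := hc b; have := hc' b
    constructor <;> linarith

lemma pure_comp {n : ℕ} {v : Fin (n + 1) → ℤ} (hv : Pure v) (j : Fin (n + 1)) :
    Pure (fun k => v (j.succAbove k)) := by
  classical
  obtain ⟨A, C, hA, hC, hv⟩ := hv
  refine ⟨j.succAbove ⁻¹' A, j.succAbove ⁻¹' C, hA.preimage (Fin.succAbove_right_injective),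
    hC.preimage (Fin.succAbove_right_injective), fun k => ?_⟩
  exact hv (j.succAbove k)

/-- Determinants with rows `2 e_a - e_c`. -/
theorem pure_det : ∀ (n : ℕ) (M : Matrix (Fin n) (Fin n) ℤ), (∀ i, Pure (M i)) →
    |M.det| ≤ 2 ^ n := by
  intro n
  induction n with
  | zero =>
    intro M _
    simp
  | succ n ih =>
    intro M hM
    set c : Fin (n + 1) → ℤ := fun j => (-1) ^ (j : ℕ) * (M.submatrix Fin.succ j.succAbove).det
      with hc
    have hexp : ∀ w : Fin (n + 1) → ℤ, (M.updateRow 0 w).det = ∑ j, w j * c j := by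
      intro w
      rw [Matrix.det_succ_row_zero]
      refine Finset.sum_congr rfl fun j _ => ?_
      have h1 : (M.updateRow 0 w).submatrix Fin.succ j.succAbove =
          M.submatrix Fin.succ j.succAbove := by
        ext a b
        simp [Matrix.submatrix_apply, Matrix.updateRow_apply, Fin.succ_ne_zero]
      rw [h1, hc]
      simp only [Matrix.updateRow_self]
      ring
    have hdet : M.det = ∑ j, M 0 j * c j := by
      rw [← hexp (M 0), Matrix.updateRow_eq_self]
    have hcK : ∀ j, |c j| ≤ 2 ^ n := by
      intro j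
      simp only [hc, abs_mul, abs_pow, abs_neg, abs_one, one_pow, one_mul]
      refine ih _ fun i => ?_
      exact pure_comp (hM i.succ) j
    have hker : ∀ q : Fin n, ∑ j, M q.succ j * c j = 0 := by
      intro q
      rw [← hexp (M q.succ)]
      refine Matrix.det_zero_of_row_eq (i := 0) (j := q.succ) (Fin.succ_ne_zero q).symm ?_
      rw [Matrix.updateRow_self, Matrix.updateRow_ne (Fin.succ_ne_zero q)]
    -- the cofactors have constant sign
    have hsign : (∀ j, 0 ≤ c j) ∨ (∀ j, c j ≤ 0) := by
      by_contra hcon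
      push Not at hcon
      obtain ⟨⟨k, hk⟩, ⟨j, hj⟩⟩ := hcon
      have hd : (M.updateRow 0 (Pi.single k 1)).det ≠ 0 := by
        rw [hexp]
        rw [Finset.sum_eq_single k]
        · simp only [Pi.single_eq_same, one_mul]
          exact hk.ne
        · intro b _ hb
          rw [Pi.single_eq_of_ne hb, zero_mul]
        · intro h
          exact absurd (Finset.mem_univ k) h
      apply hd
      rw [← Matrix.exists_mulVec_eq_zero_iff]
      refine ⟨fun i => max (c i) 0, ?_, ?_⟩
      · intro h
        have := congrFun h j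
        simp only [Pi.zero_apply] at this
        rw [max_eq_left hj.le] at this
        exact hj.ne' this
      · ext q
        simp only [Matrix.mulVec, dotProduct, Pi.zero_apply]
        refine Fin.cases ?_ (fun q => ?_) q
        · rw [Matrix.updateRow_self, Finset.sum_eq_single k]
          · simp only [Pi.single_eq_same, one_mul]
            exact max_eq_right hk.le
          · intro b _ hb
            rw [Pi.single_eq_of_ne hb, zero_mul]
          · intro h
            exact absurd (Finset.mem_univ k) h
        · rw [Matrix.updateRow_ne (Fin.succ_ne_zero q)]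
          exact pure_sign (hM q.succ) c (hker q)
    rw [hdet, pow_succ, mul_comm]
    rcases hsign with h | h
    · exact pure_bound (hM 0) c _ (by positivity) h fun j => (le_abs_self _).trans (hcK j)
    · have h1 := pure_bound (hM 0) (fun j => - c j) (2 ^ n) (by positivity)
        (fun j => by have := h j; linarith) fun j => (neg_le_abs _).trans (hcK j)
      have h2 : ∑ j, M 0 j * (fun j => - c j) j = - ∑ j, M 0 j * c j := by
        rw [← Finset.sum_neg_distrib]
        refine Finset.sum_congr rfl fun j _ => ?_
        ring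
      rw [h2, abs_neg] at h1
      exact h1

lemma gen_of_pure_aux (n : ℕ) : ∀ (s : Finset (Fin n)) (M : Matrix (Fin n) (Fin n) ℤ),
    (∀ i ∈ s, Gen (M i)) → (∀ i, i ∉ s → Pure (M i)) → |M.det| ≤ 2 ^ n := by
  classical
  intro s
  induction s using Finset.induction_on with
  | empty =>
    intro M _ h
    exact pure_det n M fun i => h i (Finset.notMem_empty i)
  | insert i s his ih =>
    intro M hG hP
    obtain ⟨A, B, C, hA, hB, hC, hv⟩ := hG i (Finset.mem_insert_self i s)
    let p : Fin n → ℤ := fun j => (if j ∈ A then 2 else 0) - (if j ∈ C then 1 else 0)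
    let q : Fin n → ℤ := fun j => (if j ∈ B then 2 else 0) - (if j ∈ C then 1 else 0)
    have hp : Pure p := ⟨A, C, hA, hC, fun j => rfl⟩
    have hq : Pure q := ⟨B, C, hB, hC, fun j => rfl⟩
    have hsum : (2 : ℤ) • M i = p + q := by
      ext j
      simp only [Pi.smul_apply, Pi.add_apply, p, q, hv j, smul_eq_mul]
      split_ifs <;> ring
    have hdet : 2 * M.det = (M.updateRow i p).det + (M.updateRow i q).det := by
      rw [← Matrix.det_updateRow_add, ← hsum, Matrix.det_updateRow_smul,
        Matrix.updateRow_eq_self]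
    have key : ∀ w : Fin n → ℤ, Pure w → |(M.updateRow i w).det| ≤ 2 ^ n := by
      intro w hw
      refine ih _ ?_ ?_
      · intro k hk
        have hne : k ≠ i := fun h => his (h ▸ hk)
        rw [Matrix.updateRow_ne hne]
        exact hG k (Finset.mem_insert_of_mem hk)
      · intro k hk
        by_cases hne : k = i
        · rw [hne, Matrix.updateRow_self]
          exact hw
        · rw [Matrix.updateRow_ne hne]
          exact hP k fun h => (Finset.mem_insert.1 h).elim hne hk
    have h1 := key p hp
    have h2 := key q hq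
    rw [abs_le] at h1 h2 ⊢
    constructor <;> linarith [h1.1, h1.2, h2.1, h2.2]

/-- Determinants with rows `e_a + e_b - e_c`. -/
theorem gen_det (n : ℕ) (M : Matrix (Fin n) (Fin n) ℤ) (h : ∀ i, Gen (M i)) :
    |M.det| ≤ 2 ^ n :=
  gen_of_pure_aux n Finset.univ M (fun i _ => h i) fun i hi => absurd (Finset.mem_univ i) hi

end Pool.Agent.J6H70.UnitAdd
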