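import Mathlib

/-!
# Short nonnegative combinations modulo a full lattice
-/

set_option autoImplicit false

namespace Pool.Agent.J6H70.UnitAdd

open Finset Matrix

lemma short_list {G ι : Type*} [AddCommGroup G] [Finite G] (g : ι → G) :
    ∀ (m : ℕ) (l : List ι), l.length = m →
      ∃ l' : List ι, l'.length < Nat.card G ∧ (l'.map g).sum = (l.map g).sum := by
  intro m
  induction m using Nat.strong_induction_on with
  | _ m ih =>
    intro l hl
    by_cases hlt : l.length < Nat.card G
    · exact ⟨l, hlt, rfl⟩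
    push Not at hlt
    have : ∃ i j : Fin (Nat.card G + 1), i ≠ j ∧
        ((l.take i).map g).sum = ((l.take j).map g).sum := by
      have := Fintype.ofFinite G
      refine Fintype.exists_ne_map_eq_of_card_lt
        (fun i : Fin (Nat.card G + 1) => ((l.take i).map g).sum) ?_
      rw [Fintype.card_fin, Nat.card_eq_fintype_card]
      exact Nat.lt_succ_self _
    obtain ⟨i, j, hij, hs⟩ : ∃ i j : Fin (Nat.card G + 1), i < j ∧
        ((l.take i).map g).sum = ((l.take j).map g).sum := by
      obtain ⟨i, j, hij, hs⟩ := this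
      rcases lt_or_gt_of_ne hij with h | h
      · exact ⟨i, j, h, hs⟩
      · exact ⟨j, i, h, hs.symm⟩
    have hj : (j : ℕ) ≤ l.length := by
      have := j.2
      omega
    have hij' : (i : ℕ) < j := hij
    have hlen : (l.take i ++ l.drop j).length < m := by
      rw [List.length_append, List.length_take, List.length_drop]
      omega
    obtain ⟨l', h1, h2⟩ := ih _ hlen _ rfl
    refine ⟨l', h1, ?_⟩
    rw [h2, List.map_append, List.sum_append, hs, ← List.sum_append, ← List.map_append,
      List.take_append_drop]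

lemma short_coeffs {G ι : Type*} [AddCommGroup G] [Finite G] [Fintype ι]
    (g : ι → G) (x : ι → ℤ) :
    ∃ y : ι → ℕ, ∑ a, y a < Nat.card G ∧ ∑ a, (y a : ℤ) • g a = ∑ a, x a • g a := by
  classical
  have hpos : 0 < Nat.card G := Nat.card_pos
  -- make the coefficients nonnegative
  let w : ι → ℕ := fun a => (x a % (Nat.card G : ℤ)).toNat
  have hw : ∀ a, (w a : ℤ) • g a = x a • g a := by
    intro a
    have h1 : (w a : ℤ) = x a % (Nat.card G : ℤ) :=
      Int.toNat_of_nonneg (Int.emod_nonneg _ (by exact_mod_cast hpos.ne'))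
    have h2 : x a = x a % (Nat.card G : ℤ) + (Nat.card G : ℤ) * (x a / (Nat.card G : ℤ)) :=
      (Int.emod_add_mul_ediv _ _).symm
    conv_rhs => rw [h2]
    rw [h1, add_smul, mul_comm, mul_smul, natCast_zsmul, card_nsmul_eq_zero', smul_zero, add_zero]
  let s : Multiset ι := ∑ a, w a • {a}
  have hs : (s.toList.map g).sum = ∑ a, x a • g a := by
    rw [← Multiset.sum_coe, ← Multiset.map_coe, Multiset.coe_toList]
    simp only [s]
    rw [← Finset.sum_congr rfl fun a _ => hw a]
    rw [← Multiset.coe_mapAddMonoidHom, map_sum, ← Multiset.coe_sumAddMonoidHom, map_sum]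
    refine Finset.sum_congr rfl fun a _ => ?_
    rw [map_nsmul, map_nsmul, natCast_zsmul]
    simp
  obtain ⟨l, h1, h2⟩ := short_list g _ s.toList rfl
  refine ⟨fun a => Multiset.count a (l : Multiset ι), ?_, ?_⟩
  · have : ∑ a, Multiset.count a (l : Multiset ι) = l.length := by
      have := Multiset.toFinset_sum_count_eq (l : Multiset ι)
      rw [Multiset.coe_card] at this
      rw [← this]
      symm
      refine Finset.sum_subset_zero_on_sdiff (Finset.subset_univ _) ?_ ?_
      · intro a ha
        rw [Finset.mem_sdiff, Multiset.mem_toFinset] at ha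
        exact Multiset.count_eq_zero.2 ha.2
      · intro a _
        rfl
    rw [this]
    exact h1
  · rw [← hs, ← h2]
    have h3 := Finset.sum_multiset_map_count (l : Multiset ι) g
    rw [Multiset.map_coe, Multiset.sum_coe] at h3
    rw [h3]
    symm
    refine Finset.sum_subset_zero_on_sdiff (Finset.subset_univ _) ?_ ?_
    · intro a ha
      rw [Finset.mem_sdiff, Multiset.mem_toFinset] at ha
      simp only [Multiset.count_eq_zero.2 ha.2, Nat.cast_zero, zero_smul]
    · intro a _
      simp only [natCast_zsmul]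

/-- Modulo a full lattice generated by the columns of `B`, an integer combination can be replaced
by a nonnegative one with total weight smaller than `|det B|`. -/
lemma lattice {r : ℕ} (B : Matrix (Fin r) (Fin r) ℤ) (hB : B.det ≠ 0) {ι : Type*} [Fintype ι]
    (u : ι → Fin r → ℤ) (x : ι → ℤ) :
    ∃ (y : ι → ℕ) (z : Fin r → ℤ), (((∑ a, y a : ℕ) : ℤ) < |B.det|) ∧
      B *ᵥ z + ∑ a, (y a : ℤ) • u a = ∑ a, x a • u a := by
  have hinj : Function.Injective B.mulVecLin := by
    rw [← LinearMap.ker_eq_bot, Submodule.eq_bot_iff]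
    intro v hv
    by_contra hne
    exact hB (Matrix.exists_mulVec_eq_zero_iff.1 ⟨v, hne, by simpa using hv⟩)
  let N : Submodule ℤ (Fin r → ℤ) := LinearMap.range B.mulVecLin
  let e : (Fin r → ℤ) ≃ₗ[ℤ] N := LinearEquiv.ofInjective B.mulVecLin hinj
  have hcard : Nat.card ((Fin r → ℤ) ⧸ N) = B.det.natAbs := by
    rw [← Submodule.natAbs_det_equiv N e]
    congr 1
    rw [← LinearMap.det_toLin']
    congr 1
  have hfin : Finite ((Fin r → ℤ) ⧸ N) := by
    apply Nat.finite_of_card_ne_zero
    rw [hcard]
    exact Int.natAbs_ne_zero.2 hB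
  obtain ⟨y, h1, h2⟩ := short_coeffs (fun a => (Submodule.Quotient.mk (p := N) (u a))) x
  rw [hcard] at h1
  have h3 : Submodule.Quotient.mk (p := N) (∑ a, (y a : ℤ) • u a) =
      Submodule.Quotient.mk (p := N) (∑ a, x a • u a) := by
    have := h2
    simp only [← Submodule.Quotient.mk_smul] at this
    rw [← Submodule.mkQ_apply, ← Submodule.mkQ_apply, map_sum, map_sum]
    exact this
  rw [eq_comm, Submodule.Quotient.eq] at h3
  obtain ⟨z, hz⟩ := h3
  refine ⟨y, z, ?_, ?_⟩
  · rw [← Int.natCast_natAbs]
    exact_mod_cast h1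
  · have : B *ᵥ z = ∑ a, x a • u a - ∑ a, (y a : ℤ) • u a := hz
    rw [this, sub_add_cancel]

end Pool.Agent.J6H70.UnitAdd
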