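import Pool.Agent.J6H70.UnitAdd.DetBound
import Pool.Agent.J6H70.UnitAdd.Lattice

/-!
# Small integer solutions of unit and addition equations
-/

set_option autoImplicit false

namespace Pool.Agent.J6H70.UnitAdd

open Finset Matrix

/-- A family of columns on which no nonzero functional vanishes contains a nonzero minor. -/
lemma exists_minor {r : ℕ} {σ : Type*} (col : σ → Fin r → ℚ)
    (h : ∀ g : Fin r → ℚ, (∀ a, ∑ i, g i * col a i = 0) → ∀ i, g i = 0) :
    ∃ c : Fin r → σ, (Matrix.of fun i j => col (c j) i).det ≠ 0 := by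
  have htop : Submodule.span ℚ (Set.range col) = ⊤ := by
    by_contra hne
    obtain ⟨φ, hφ0, hφ⟩ := Submodule.exists_le_ker_of_lt_top _ (lt_top_iff_ne_top.2 hne)
    apply hφ0
    have hφe : ∀ w : Fin r → ℚ, φ w = ∑ i, φ (Pi.single i 1) * w i := by
      intro w
      rw [LinearMap.pi_apply_eq_sum_univ φ w]
      refine Finset.sum_congr rfl fun i _ => ?_
      rw [smul_eq_mul, mul_comm]
      congr 2
      ext j
      simp [Pi.single_apply, eq_comm]
    have h1 := h (fun i => φ (Pi.single i 1)) (fun a => by
      rw [← hφe]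
      exact hφ (Submodule.subset_span ⟨a, rfl⟩))
    refine LinearMap.ext fun w => ?_
    rw [hφe w]
    simp only [LinearMap.zero_apply]
    refine Finset.sum_eq_zero fun i _ => ?_
    rw [h1 i, zero_mul]
  obtain ⟨f, hf, -, hli⟩ := Submodule.exists_fun_fin_finrank_span_eq ℚ (Set.range col)
  have hr : Module.finrank ℚ (Submodule.span ℚ (Set.range col)) = r := by
    rw [htop, finrank_top, Module.finrank_fin_fun]
  choose c hc using hf
  refine ⟨fun j => c (Fin.cast hr.symm j), ?_⟩
  have h2 : LinearIndependent ℚ (Matrix.of fun i j => col (c (Fin.cast hr.symm j)) i).col := by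
    have h3 : (Matrix.of fun i j => col (c (Fin.cast hr.symm j)) i).col =
        f ∘ Fin.cast hr.symm := by
      funext j
      rw [Function.comp_apply, ← hc]
      rfl
    rw [h3]
    exact hli.comp _ (Fin.cast_injective hr.symm)
  rw [Matrix.linearIndependent_cols_iff_isUnit, Matrix.isUnit_iff_isUnit_det] at h2
  exact h2.ne_zero

variable {κ : Type*} [Fintype κ] [DecidableEq κ]

/-- The vector of the equation `z_a + z_b = z_c`. -/
def relVec (a b c : κ) : κ → ℤ := fun k =>
  (if k = a then 1 else 0) + (if k = b then 1 else 0) - (if k = c then 1 else 0)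

lemma relVec_sum (a b c : κ) (y : κ → ℤ) : ∑ k, relVec a b c k * y k = y a + y b - y c := by
  simp [relVec, add_mul, sub_mul, Finset.sum_add_distrib]

omit [Fintype κ] in
lemma relVec_gen {r : ℕ} (a b c : κ) (f : Fin r → κ) (hf : Function.Injective f) :
    Gen (fun j => relVec a b c (f j)) := by
  refine ⟨f ⁻¹' {a}, f ⁻¹' {b}, f ⁻¹' {c}, Set.subsingleton_singleton.preimage hf,
    Set.subsingleton_singleton.preimage hf, Set.subsingleton_singleton.preimage hf, fun j => ?_⟩
  simp only [relVec, Set.mem_preimage, Set.mem_singleton_iff]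

/-- The main statement: a solution of the unit and addition equations on a finite set of
indices with a marked unit. -/
theorem core (val : κ → ℤ) (o : κ) (ho : val o = 1) :
    ∃ y : κ → ℤ, (∀ k, |y k| ≤ 2 ^ (Fintype.card κ - 1)) ∧ y o = 1 ∧
      ∀ a b c, val c = val a + val b → y c = y a + y b := by
  let R : Set (κ → ℚ) := {w | ∃ a b c, val c = val a + val b ∧ w = fun k => (relVec a b c k : ℚ)}
  obtain ⟨f, hf, hspan, hli⟩ := Submodule.exists_fun_fin_finrank_span_eq ℚ R
  generalize hr : Module.finrank ℚ (Submodule.span ℚ R) = r at f hf hspan hli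
  choose va vb vc hval hvf using hf
  let v : Fin r → κ → ℤ := fun i => relVec (va i) (vb i) (vc i)
  have hvf' : ∀ i k, f i k = (v i k : ℚ) := fun i k => by rw [hvf i]
  have hvval : ∀ i, ∑ k, v i k * val k = 0 := by
    intro i
    rw [relVec_sum, hval i]
    ring
  -- no functional kills all columns other than `o`
  have hkey : ∀ g : Fin r → ℚ, (∀ a : {a : κ // a ≠ o}, ∑ i, g i * (v i a : ℚ) = 0) →
      ∀ i, g i = 0 := by
    intro g hg
    have h1 : ∑ k, (∑ i, g i * (v i k : ℚ)) * (val k : ℚ) = 0 := by
      calc ∑ k, (∑ i, g i * (v i k : ℚ)) * (val k : ℚ)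
          = ∑ k, ∑ i, g i * ((v i k * val k : ℤ) : ℚ) := by
            refine Finset.sum_congr rfl fun k _ => ?_
            rw [Finset.sum_mul]
            refine Finset.sum_congr rfl fun i _ => ?_
            push_cast
            ring
        _ = ∑ i, g i * ((∑ k, v i k * val k : ℤ) : ℚ) := by
            rw [Finset.sum_comm]
            refine Finset.sum_congr rfl fun i _ => ?_
            rw [Int.cast_sum, Finset.mul_sum]
        _ = 0 := by
            refine Finset.sum_eq_zero fun i _ => ?_
            rw [hvval i]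
            simp
    have h2 : ∑ i, g i * (v i o : ℚ) = 0 := by
      rw [Finset.sum_eq_single o] at h1
      · rw [ho] at h1
        simpa using h1
      · intro b _ hb
        rw [hg ⟨b, hb⟩, zero_mul]
      · intro h
        exact absurd (Finset.mem_univ o) h
    refine Fintype.linearIndependent_iff.1 hli g ?_
    funext k
    simp only [Finset.sum_apply, Pi.smul_apply, smul_eq_mul, hvf', Pi.zero_apply]
    by_cases hk : k = o
    · rw [hk]
      exact h2
    · exact hg ⟨k, hk⟩
  let Mt : (Fin r → κ) → Matrix (Fin r) (Fin r) ℤ := fun c => Matrix.of fun i j => v i (c j)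
  obtain ⟨c0, hc0⟩ := exists_minor (fun (a : {a : κ // a ≠ o}) i => (v i a : ℚ)) hkey
  have hc0' : (Mt fun j => (c0 j : κ)).det ≠ 0 := by
    intro h
    apply hc0
    have h1 : (Matrix.of fun i j => ((v i (c0 j) : ℤ) : ℚ)) =
        (Int.castRingHom ℚ).mapMatrix (Mt fun j => (c0 j : κ)) := by
      ext i j
      rfl
    rw [h1, ← RingHom.map_det, h, map_zero]
  have : Nonempty (Fin r → {a : κ // a ≠ o}) := ⟨c0⟩
  obtain ⟨c, hc⟩ := Finite.exists_max
    (fun c : Fin r → {a : κ // a ≠ o} => |(Mt fun j => (c j : κ)).det|)
  set B := Mt fun j => (c j : κ) with hBdef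
  have hBpos : 0 < |B.det| := lt_of_lt_of_le (abs_pos.2 hc0') (hc c0)
  have hB0 : B.det ≠ 0 := abs_pos.1 hBpos
  have hbound : ∀ c' : Fin r → κ, |(Mt c').det| ≤ 2 ^ r := by
    intro c'
    by_cases hinj : Function.Injective c'
    · exact gen_det r _ fun i => relVec_gen _ _ _ _ hinj
    · rw [Function.Injective] at hinj
      push Not at hinj
      obtain ⟨j, k, hjk, hne⟩ := hinj
      rw [Matrix.det_zero_of_column_eq hne (fun i => by simp [Mt, hjk])]
      simp
  have hcinj : Function.Injective c := by
    intro j k hjk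
    by_contra hne
    apply hB0
    exact Matrix.det_zero_of_column_eq hne (fun i => by simp [hBdef, Mt, hjk])
  have hrcard : r ≤ Fintype.card κ - 1 := by
    have h1 := Fintype.card_le_of_injective c hcinj
    rw [Fintype.card_fin] at h1
    have h2 : Fintype.card {a : κ // a ≠ o} = Fintype.card κ - 1 := by
      rw [Fintype.card_subtype_compl, Fintype.card_subtype_eq]
    rw [h2] at h1
    exact h1
  obtain ⟨y, z, hylt, hyz⟩ := lattice B hB0 (fun (a : {a : κ // a ≠ o}) i => v i a)
    (fun a => val a)
  -- the solution away from `o`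
  let Y : {a : κ // a ≠ o} → ℤ := fun a => (y a : ℤ) + ∑ j, if c j = a then z j else 0
  have hYcol : ∀ i, v i o + ∑ a : {a : κ // a ≠ o}, v i a * Y a = 0 := by
    intro i
    have h1 : ∑ a : {a : κ // a ≠ o}, v i a * Y a = ∑ a : {a : κ // a ≠ o}, v i a * val a := by
      have h2 := congrFun hyz i
      simp only [Pi.add_apply, Finset.sum_apply, Pi.smul_apply, smul_eq_mul, Matrix.mulVec,
        dotProduct] at h2
      have h3 : ∑ a : {a : κ // a ≠ o}, v i a * Y a =
          ∑ j, B i j * z j + ∑ a : {a : κ // a ≠ o}, (y a : ℤ) * v i a := by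
        simp only [Y, mul_add, Finset.sum_add_distrib, Finset.mul_sum]
        rw [add_comm]
        congr 1
        · rw [Finset.sum_comm]
          refine Finset.sum_congr rfl fun j _ => ?_
          rw [Finset.sum_eq_single (c j)]
          · rw [if_pos rfl]
            rfl
          · intro b _ hb
            rw [if_neg (Ne.symm hb), mul_zero]
          · intro h
            exact absurd (Finset.mem_univ _) h
        · refine Finset.sum_congr rfl fun a _ => ?_
          ring
      rw [h3, h2]
      refine Finset.sum_congr rfl fun a _ => ?_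
      ring
    rw [h1]
    have h4 := hvval i
    rw [← Finset.add_sum_erase _ _ (Finset.mem_univ o), ho, mul_one] at h4
    rw [← h4]
    congr 1
    rw [← Finset.sum_subtype (Finset.univ.erase o) (p := fun a => a ≠ o) (fun a => by simp)
      (fun a => v i a * val a)]
  -- Cramer's rule
  have hcramer : ∀ k : Fin r, |Y (c k)| ≤ 2 ^ r := by
    intro k
    have hcol : ∀ a : κ, (B.updateCol k fun i => v i a) =
        Mt (Function.update (fun j => (c j : κ)) k a) := by
      intro a
      ext i j
      by_cases hj : j = k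
      · subst hj
        simp [Mt]
      · rw [Matrix.updateCol_ne hj]
        simp [Mt, hBdef, Function.update_of_ne hj]
    have h1 : B.cramer (fun i => v i o) k + ∑ a : {a : κ // a ≠ o},
        Y a * B.cramer (fun i => v i a) k = 0 := by
      have h2 : (fun i => v i o) + ∑ a : {a : κ // a ≠ o}, Y a • (fun i => v i a) = 0 := by
        funext i
        simp only [Pi.add_apply, Finset.sum_apply, Pi.smul_apply, smul_eq_mul, Pi.zero_apply]
        rw [← hYcol i]
        congr 1
        refine Finset.sum_congr rfl fun a _ => ?_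
        ring
      have h3 := congrFun (congrArg B.cramer h2) k
      rw [map_add, map_sum, map_zero] at h3
      simpa only [Pi.add_apply, Finset.sum_apply, map_smul, Pi.smul_apply, smul_eq_mul,
        Pi.zero_apply] using h3
    have hck : B.cramer (fun i => v i (c k)) k = B.det := by
      rw [Matrix.cramer_apply, hcol]
      congr 2
      exact Function.update_eq_self k _
    have hco : |B.cramer (fun i => v i o) k| ≤ 2 ^ r := by
      rw [Matrix.cramer_apply, hcol]
      exact hbound _
    -- all other terms
    have hterm : ∀ a : {a : κ // a ≠ o}, a ≠ c k →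
        |Y a * B.cramer (fun i => v i a) k| ≤ y a * |B.det| := by
      intro a ha
      by_cases hac : ∃ j, c j = a
      · obtain ⟨j, rfl⟩ := hac
        have hjk : j ≠ k := fun h => ha (by rw [h])
        have : B.cramer (fun i => v i (c j)) k = 0 := by
          rw [Matrix.cramer_apply]
          refine Matrix.det_zero_of_column_eq hjk fun i => ?_
          rw [Matrix.updateCol_ne hjk, Matrix.updateCol_self]
          rfl
        rw [this, mul_zero, abs_zero]
        positivity
      · push Not at hac
        have hY : Y a = y a := by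
          simp only [Y]
          rw [Finset.sum_eq_zero, add_zero]
          intro j _
          rw [if_neg (hac j)]
        rw [hY, abs_mul, Nat.abs_cast]
        refine mul_le_mul_of_nonneg_left ?_ (by positivity)
        rw [Matrix.cramer_apply, hcol]
        have h5 := hc (Function.update c k a)
        have h6 : (fun j => ((Function.update c k a) j : κ)) =
            Function.update (fun j => (c j : κ)) k (a : κ) := by
          funext j
          by_cases hj : j = k
          · subst hj
            simp
          · simp [Function.update_of_ne hj]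
        simp only [h6] at h5
        exact h5
    rw [← Finset.add_sum_erase _ _ (Finset.mem_univ (c k)), hck] at h1
    have h7 : |Y (c k) * B.det| ≤ 2 ^ r + (|B.det| - 1) * |B.det| := by
      have h8 : Y (c k) * B.det = - (B.cramer (fun i => v i o) k) -
          ∑ a ∈ Finset.univ.erase (c k), Y a * B.cramer (fun i => v i a) k := by
        linarith
      rw [h8]
      have h9 : |∑ a ∈ Finset.univ.erase (c k), Y a * B.cramer (fun i => v i a) k| ≤
          (|B.det| - 1) * |B.det| := by
        calc |∑ a ∈ Finset.univ.erase (c k), Y a * B.cramer (fun i => v i a) k|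
            ≤ ∑ a ∈ Finset.univ.erase (c k), |Y a * B.cramer (fun i => v i a) k| :=
              Finset.abs_sum_le_sum_abs _ _
          _ ≤ ∑ a ∈ Finset.univ.erase (c k), (y a : ℤ) * |B.det| :=
              Finset.sum_le_sum fun a ha => hterm a (Finset.ne_of_mem_erase ha)
          _ ≤ ∑ a, (y a : ℤ) * |B.det| :=
              Finset.sum_le_sum_of_subset_of_nonneg (Finset.erase_subset _ _)
                fun a _ _ => by positivity
          _ = (∑ a, (y a : ℤ)) * |B.det| := by rw [Finset.sum_mul]
          _ ≤ (|B.det| - 1) * |B.det| := by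
              refine mul_le_mul_of_nonneg_right ?_ (abs_nonneg _)
              push_cast at hylt
              linarith
      calc _ ≤ |(-(B.cramer (fun i => v i o) k))| +
            |∑ a ∈ Finset.univ.erase (c k), Y a * B.cramer (fun i => v i a) k| := abs_sub _ _
        _ ≤ _ := by rw [abs_neg]; exact add_le_add hco h9
    rw [abs_mul] at h7
    have h10 : |B.det| ≤ 2 ^ r := hbound _
    -- `D * Y ≤ 2^r + (D - 1) D` and `1 ≤ D ≤ 2^r` give `Y ≤ 2^r`
    by_contra hcon
    push Not at hcon
    nlinarith [mul_nonneg (sub_nonneg.2 h10) (sub_nonneg.2 (Int.add_one_le_iff.2 hBpos)),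
      mul_lt_mul_of_pos_right hcon hBpos]
  have hYb : ∀ a, |Y a| ≤ 2 ^ r := by
    intro a
    by_cases hac : ∃ j, c j = a
    · obtain ⟨j, rfl⟩ := hac
      exact hcramer j
    · push Not at hac
      have hY : Y a = y a := by
        simp only [Y]
        rw [Finset.sum_eq_zero, add_zero]
        intro j _
        rw [if_neg (hac j)]
      rw [hY, Nat.abs_cast]
      have h10 : |B.det| ≤ 2 ^ r := hbound _
      have h11 : (y a : ℤ) ≤ ((∑ a, y a : ℕ) : ℤ) := by
        exact_mod_cast Finset.single_le_sum (f := y) (fun _ _ => Nat.zero_le _)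
          (Finset.mem_univ a)
      linarith
  have h2r : (2 : ℤ) ^ r ≤ 2 ^ (Fintype.card κ - 1) :=
    pow_le_pow_right₀ (by norm_num) hrcard
  let Z : κ → ℤ := fun k => if h : k ≠ o then Y ⟨k, h⟩ else 1
  have hZo : Z o = 1 := by simp [Z]
  have hZne : ∀ a : {a : κ // a ≠ o}, Z a = Y a := by
    intro a
    simp only [Z]
    rw [dif_pos a.2]
  have hZv : ∀ i, ∑ k, v i k * Z k = 0 := by
    intro i
    rw [← Finset.add_sum_erase _ _ (Finset.mem_univ o), hZo, mul_one]
    rw [← hYcol i]
    congr 1
    rw [Finset.sum_subtype (Finset.univ.erase o) (p := fun a => a ≠ o) (fun a => by simp)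
      (fun a => v i a * Z a)]
    refine Finset.sum_congr rfl fun a _ => ?_
    rw [hZne]
  refine ⟨Z, ?_, hZo, ?_⟩
  · intro k
    by_cases hk : k = o
    · rw [hk, hZo, abs_one]
      exact one_le_pow₀ (by norm_num)
    · have := hYb ⟨k, hk⟩
      rw [← hZne ⟨k, hk⟩] at this
      exact this.trans h2r
  · intro a b d habd
    -- the functional given by `Z` kills the span
    let φ : (κ → ℚ) →ₗ[ℚ] ℚ :=
      ∑ k, (Z k : ℚ) • (LinearMap.proj k : (κ → ℚ) →ₗ[ℚ] ℚ)
    have hφ : ∀ w, φ w = ∑ k, (Z k : ℚ) * w k := by
      intro w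
      simp [φ, LinearMap.sum_apply]
    have h1 : Submodule.span ℚ (Set.range f) ≤ LinearMap.ker φ := by
      rw [Submodule.span_le]
      rintro _ ⟨i, rfl⟩
      rw [SetLike.mem_coe, LinearMap.mem_ker, hφ]
      have := hZv i
      have h2 : ((∑ k, v i k * Z k : ℤ) : ℚ) = 0 := by rw [this]; simp
      rw [← h2]
      push_cast
      refine Finset.sum_congr rfl fun k _ => ?_
      rw [hvf']
      ring
    rw [hspan] at h1
    have h2 := h1 (Submodule.subset_span ⟨a, b, d, habd, rfl⟩ :
      (fun k => (relVec a b d k : ℚ)) ∈ Submodule.span ℚ R)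
    rw [LinearMap.mem_ker, hφ] at h2
    have h3 : ((∑ k, relVec a b d k * Z k : ℤ) : ℚ) = 0 := by
      rw [← h2]
      push_cast
      refine Finset.sum_congr rfl fun k _ => ?_
      ring
    rw [relVec_sum] at h3
    have h4 : Z a + Z b - Z d = 0 := by exact_mod_cast h3
    linarith

/-- Integer solutions bounded by `2 ^ (n - 1)`. -/
theorem main (n : ℕ) (x : Fin n → ℤ) :
    ∃ y : Fin n → ℤ, (∀ i, |y i| ≤ 2 ^ (n - 1)) ∧ (∀ i, x i = 1 → y i = 1) ∧
      ∀ i j k, x k = x i + x j → y k = y i + y j := by
  classical
  by_cases h1 : ∃ i, x i = 1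
  · obtain ⟨i0, hi0⟩ := h1
    obtain ⟨y, hy, hyo, hyr⟩ := core (κ := Set.range x) (fun a => (a : ℤ)) ⟨1, i0, hi0⟩ rfl
    have hcard : Fintype.card (Set.range x) ≤ n := by
      have := Fintype.card_range_le x
      rwa [Fintype.card_fin] at this
    refine ⟨fun i => y ⟨x i, i, rfl⟩, ?_, ?_, ?_⟩
    · intro i
      refine (hy _).trans (pow_le_pow_right₀ (by norm_num) (by omega))
    · intro i hi
      have h2 : (⟨x i, i, rfl⟩ : Set.range x) = ⟨1, i0, hi0⟩ := Subtype.ext hi
      exact (congrArg y h2).trans hyo
    · intro i j k hk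
      exact hyr _ _ _ hk
  · push Not at h1
    refine ⟨0, ?_, ?_, ?_⟩
    · intro i
      simp
    · intro i hi
      exact absurd hi (h1 i)
    · intro i j k _
      simp

end Pool.Agent.J6H70.UnitAdd
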